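import Mathlib
import Pool.Agent.KS6_56.IT.C
import Pool.Agent.KS6_56.IT.D

/-!
# Which minimal interval exchanges have non-trivial embeddings

A minimal interval exchange has a non-trivial continuous embedding into a planar piecewise isometry
which is piecewise twice continuously differentiable if and only if it has a connection of length at
least two, and then it has a polygonal one, into a piecewise isometry of the whole plane. There is no
connection if the lengths are rationally independent, and for every `d ≥ 3` there are minimal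
`d`-exchanges with a connection.
-/

set_option autoImplicit false

namespace Pool.Agent.Results.MP_b9fb92_an.Connections

open Set Pool.Agent.Results.MP_b9fb92_an.PolygonalArc Pool.Agent.KS6_56.IT

/-- the exchanges of the library have a connection -/
theorem lenv_connection {α : ℝ} (h0 : 0 < α) (h1 : α < 1) (n : ℕ) :
    HasConnection (symIET (lenv α n) (lenv_pos h0 h1 n)) := by
  set E := symIET (lenv α n) (lenv_pos h0 h1 n) with hE
  have hmap : E.map = sm (lenv α n) := symIET_map _ _
  have hl0 : E.left 0 = 0 := lft_zero _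
  have hp : (0 : ℝ) < 2 ^ n := by positivity
  have e0 : E.map (E.left 0) = 2 ^ n := by
    rw [hl0, hmap, sm_lenv_lt h0 h1 n le_rfl (by linarith)]; ring
  have e1 : E.map (2 ^ n) = 2 * 2 ^ n := by
    rw [hmap, sm_lenv_lt h0 h1 n hp.le (by linarith)]; ring
  have hlen0 : lenv α n 0 = 2 * 2 ^ n := by simp [lenv]
  have hl1 : E.left 1 = 2 * 2 ^ n := by
    have h2 : E.left 1 = ∑ k : Fin (n + 3) with k < 1, lenv α n k := rfl
    rw [h2, Finset.sum_eq_single 0]
    · exact hlen0
    · intro b hb hb0
      rw [Finset.mem_filter, Fin.lt_def] at hb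
      exact absurd (Fin.ext (by simp at hb ⊢; omega)) hb0
    · intro h3
      exact absurd (Finset.mem_filter.2 ⟨Finset.mem_univ _, by rw [Fin.lt_def]; simp⟩) h3
  refine ⟨0, 1, 1, ?_, ?_⟩
  · intro i
    rw [e0]
    rcases Fin.eq_zero_or_eq_succ i with rfl | ⟨i, rfl⟩
    · rw [hl0]; exact hp.ne'
    · have h3 := lft_add_le (lenv_pos h0 h1 n) (Fin.succ_pos i)
      rw [lft_zero, hlen0] at h3
      intro h4
      rw [left_eq] at h4
      have h5 : lft E.len i.succ = lft (lenv α n) i.succ := rfl
      rw [h5] at h4
      linarith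
  · rw [e0, Function.iterate_one, e1, hl1]

/-- **Classification, and existence for all `d ≥ 3`.**

1. For `d ≥ 2` and a minimal `d`-IET `E`: there are a `d`-PWI and a non-trivial continuous embedding
of `E` into it which is piecewise `C²` if and only if `E` has a connection of length at least two
(the image of a left end point is not a left end point, but one of its iterates is).
2. If `E` has such a connection then there are a `d`-PWI of the whole plane and a non-trivial
continuous embedding which is polygonal.
3. If the lengths of `E` are rationally independent then `E` has no connection; so all piecewise `C²`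
continuous embeddings of `E` are trivial.
4. For every `d ≥ 3` there is a minimal `d`-IET with the symmetric permutation and `d - 1` genuine
discontinuities which has such a connection, hence a non-trivial continuous embedding. -/
theorem result :
    (∀ (d : ℕ), 2 ≤ d → ∀ E : IET d, E.IsMinimal →
      ((∃ (P : PWI d) (h : ℝ → ℂ), IsContinuousEmbedding E P h ∧ PiecewiseC2 E h ∧ ¬ IsTrivial E h) ↔
        HasConnection E) ∧
      (HasConnection E → ∃ (P : PWI d) (h : ℝ → ℂ), P.X = univ ∧ IsContinuousEmbedding E P h ∧
        Polygonal E h ∧ ¬ IsTrivial E h) ∧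
      (LinearIndependent ℚ E.len → ¬ HasConnection E)) ∧
    ∀ d : ℕ, 3 ≤ d → ∃ (E : IET d) (P : PWI d) (h : ℝ → ℂ), E.IsMinimal ∧ HasConnection E ∧
      E.perm = Fin.revPerm ∧ (∀ j : Fin d, 0 < (j : ℕ) → ¬ ContinuousAt E.map (E.left j)) ∧
      P.X = univ ∧ IsContinuousEmbedding E P h ∧ Polygonal E h ∧ ¬ IsTrivial E h := by
  have hsuff : ∀ (d : ℕ), 1 ≤ d → ∀ E : IET d, HasConnection E → ∃ (P : PWI d) (h : ℝ → ℂ), P.X = univ ∧
      IsContinuousEmbedding E P h ∧ Polygonal E h ∧ ¬ IsTrivial E h := by
    intro d hd E hC
    obtain ⟨m, rfl⟩ : ∃ m, d = m + 1 := ⟨d - 1, by omega⟩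
    exact sufficiency E hC
  refine ⟨fun d hd E hE => ⟨⟨?_, ?_⟩, hsuff d (by omega) E, no_connection hd⟩, ?_⟩
  · rintro ⟨P, h, h1, h2, h3⟩
    by_contra hn
    exact h3 (necessity (by omega) hE h1 h2 hn)
  · intro hC
    obtain ⟨P, h, -, h2, h3, h4⟩ := hsuff d (by omega) E hC
    exact ⟨P, h, h2, h3.c2, h4⟩
  · intro d hd
    obtain ⟨n, rfl⟩ : ∃ n, d = n + 3 := ⟨d - 3, by omega⟩
    have hα : Irrational (√2 - 1) := by
      simpa using irrational_sqrt_two.sub_natCast 1
    have hs : (1 : ℝ) < √2 := by
      rw [Real.lt_sqrt (by norm_num)]; norm_num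
    have hs' : √2 < (2 : ℝ) := by
      rw [Real.sqrt_lt' (by norm_num)]; norm_num
    have h0 : 0 < √2 - 1 := by linarith
    have h1 : √2 - 1 < 1 := by linarith
    have hC := lenv_connection h0 h1 n
    obtain ⟨P, h, g1, g2, g3, g4⟩ := hsuff _ (by omega) _ hC
    refine ⟨symIET (lenv (√2 - 1) n) (lenv_pos h0 h1 n), P, h, ?_, hC, rfl, symIET_disc _ _, g1, g2, g3, g4⟩
    refine symIET_minimal _ _ ?_
    rw [lenv_sum]
    exact lenv_good hα h0 h1 n

end Pool.Agent.Results.MP_b9fb92_an.Connections
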